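import Pool.Agent.Run7.h642.SU.Fs
import Pool.Agent.Run7.h642.PL.Nf

/-!
# The residue formula for covers of rational ruled surfaces

Let `M` be a finitely generated field of characteristic zero and of transcendence degree `d` over `ℚ`,
which contains the number field `k`, and let `K = M(w_0, ..., w_l)` be the field of rational functions in
`l + 1` variables over `M`: the function field of a variety `𝒴 = Z × ℙ^(l+1)` over `k` of dimension
`m = d + l + 1`, where `Z` is any variety over `k` of dimension `d`, with the function field `M`.  Let `g`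
and `h` be positive integers, let `α` and `β` be natural numbers with `h α ≤ β`, and let `X` be the surface
over `K` with the equation

  `H(t, x, y) = y^g + ∑ h_ij(t) x^i y^j = 0`,  `deg h_ij ≤ β (g - j) - α i`,

where the sum is over `i + h j ≤ g h`, `j < g`: a covering of degree `g` of the rational ruled surface `F_α`
(with the coordinates `t, x`).  Near `t = ∞` one puts `t = 1 / t'`, `x = x' / t'^α`, `y = y' / t'^β`, and
the fibre at `t = ∞` is `H_∞(x', y') = 0`, where the coefficient of `x'^i y'^j` is the coefficient of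
`t^(β (g - j) - α i)` in `h_ij`.  The fibre of `X → ℙ¹` over `t` is a curve of degree `g h` in the weighted
projective plane `ℙ(1, 1, h)`; its points at infinity are the zeros of
`ψ_t = y^g + ∑ h_(h(g-j), j)(t) y^j`.  For instance these are

* all smooth surfaces of degree `g h ≥ 3` in `ℙ(1, 1, 1, h)`, in particular all smooth surfaces of degree at
  least `3` in `ℙ³` (cubic surfaces, quartic K3 surfaces, quintics, ...) and all smooth double planes with a
  ramification curve of degree at least `4`, in general coordinates over `K`, with the `g` points on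
  the axis of the pencil of planes blown up (`α = 1`, `β = h`; then `ψ` does not depend on `t`);
* the double coverings of `ℙ¹ × ℙ¹` and of `F_α`, for instance the K3 surfaces which are double coverings of
  `ℙ¹ × ℙ¹` with a ramification curve of bidegree `(4, 4)` (`g = 2`, `h = 2`, `α = 0`, `β = 2`), which have
  fibrations in curves of genus one that have no sections in general.

The algebraic side.  The generic fibre `C` over `K(t)` is smooth and transversal to infinity, and all
geometric fibres of `X → ℙ¹` are irreducible.  So `Pic X → Pic C` is surjective, with the kernel generated up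
to torsion by the class of a fibre, if `X` is smooth.  Let `A` be the Dedekind domain `K(t)[x, y] / (H)`, let
`ρ` be the rank of its class group, let `u` be the rank of `Aˣ / K(t)ˣ`, and let `s` be the number of the
monic irreducible factors of `ψ` over `K(t)`, that is of the closed points of `C` at infinity.  The exact
sequence `0 → Aˣ/K(t)ˣ → ℤ^s → Pic C → Cl A → 0` shows that `rank Pic X = 1 + ρ + s - u`.  If
`b_1(X) = 0`, then this is the rank of `NS(X/K)`.  We prove that `ρ` and `u` are finite.

We assume that the total space of the family is rational over `M`, that is, that the function field of `X`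
is purely transcendental over `M`.  This holds for the generic member of every linear system of such
surfaces over `M`.

The analytic side: for every model of `K` and of the surface over the integers of `k`, the series of the
averages `𝔅_v` of the traces of the Frobenius on `H²` of the fibres has the residue
`1 + ρ + s - u = rank NS(X/K)` at `s = 2`.
-/

set_option autoImplicit false

namespace Pool.Agent.Results.MP_6090f9_nt.CoversOfRuledSurfaces

open Polynomial NumberField IsDedekindDomain
open Pool.Agent.Y707.PR (HasResidue)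

/-- All the monomials `x^i y^j` of the polynomial satisfy `i + h j ≤ g h`, and the coefficient of `y^g` is
`1`. Here `x` is the inner and `y` is the outer variable. -/
def IsPlane {R : Type} [CommRing R] (g h : ℕ) (H : R[X][X]) : Prop :=
  (∀ i j : ℕ, (H.coeff j).coeff i ≠ 0 → i + h * j ≤ g * h) ∧ (H.coeff g).coeff 0 = 1

/-- The derivative with respect to the inner variable. -/
noncomputable def derivX {R : Type} [CommRing R] (H : R[X][X]) : R[X][X] :=
  Bivariate.swap (derivative (Bivariate.swap H))

/-- The polynomial `ψ = ∑ h_(h(g-j), j) y^j` of the points at infinity. -/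
noncomputable def atInfinity {R : Type} [CommRing R] (g h : ℕ) (H : R[X][X]) : R[X] :=
  ∑ j ∈ Finset.range (g + 1), C ((H.coeff j).coeff (h * (g - j))) * X ^ j

/-- The curve is smooth (`H` and its partial derivatives generate the unit ideal) and transversal to
infinity (`ψ` is separable). -/
def IsGood {R : Type} [CommRing R] (g h : ℕ) (H : R[X][X]) : Prop :=
  Ideal.span {H, derivative H, derivX H} = ⊤ ∧ (atInfinity g h H).Separable

/-- The equation of the fibre at `t = ∞`: the coefficient of `x^i y^j` is the coefficient of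
`t^(β (g - j) - α i) x^i y^j`. -/
noncomputable def fibreAtInfinity {R : Type} [CommRing R] (g h α β : ℕ) (H : R[X][X][X]) : R[X][X] :=
  ∑ j ∈ Finset.range (g + 1), C (∑ i ∈ Finset.range (g * h + 1),
    C (if i + h * j ≤ g * h then ((H.coeff j).coeff i).coeff (β * (g - j) - α * i) else 0) * X ^ i) * X ^ j

/-- All the geometric fibres over the projective line of the surfaces over the points with `N ≠ 0` are
irreducible. -/
def IrreducibleFibres {R : Type} [CommRing R] (g h α β : ℕ) (G : R[X][X][X]) (N : R) : Prop :=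
  ∀ (L : Type) [Field L] (φ : R →+* L), φ N ≠ 0 →
    (∀ t : L, Irreducible (G.map (mapRingHom (eval₂RingHom φ t)))) ∧
      Irreducible ((fibreAtInfinity g h α β G).map (mapRingHom φ))

/-- The equation of the surface as the equation of a curve over the field `K(t)`: the generic fibre. -/
noncomputable def generic {K : Type} [Field K] (H : K[X][X][X]) : (RatFunc K)[X][X] :=
  H.map (mapRingHom (algebraMap K[X] (RatFunc K)))

/-- The function field of the curve `P = 0` over the field `L` is purely transcendental over the subfield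
`M` of `L`, of transcendence degree `t`. -/
def RationalOver (M : Type) {L : Type} [Field M] [Field L] [Algebra M L] (P : L[X][X]) (t : ℕ) : Prop :=
  ∃ (E : Type) (_ : Field E) (_ : Algebra M E) (_ : Algebra L E) (_ : Algebra (AdjoinRoot P) E)
    (z : Fin t → E), IsScalarTower M L E ∧ IsScalarTower L (AdjoinRoot P) E ∧
      IsFractionRing (AdjoinRoot P) E ∧ AlgebraicIndependent M z ∧
        IntermediateField.adjoin M (Set.range z) = ⊤

/-- The rank of the quotient of a commutative group by a subgroup. -/
noncomputable def quotientRank {U : Type} [CommGroup U] (V : Subgroup U) : Cardinal :=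
  Module.rank ℤ (Additive (U ⧸ V))

/-- The ring `A = L[x, y] / (P)` is a Dedekind domain, `n` is the rank of its class group, and `u` is the
rank of the group of the units of `A` modulo the nonzero constants. -/
def HasRanks {L : Type} [Field L] (P : L[X][X]) (n u : ℕ) : Prop :=
  ∃ _ : IsDedekindDomain (AdjoinRoot P),
    Module.rank ℤ (Additive (ClassGroup (AdjoinRoot P))) = (n : Cardinal) ∧
      quotientRank (Units.map (algebraMap L (AdjoinRoot P) : L →* AdjoinRoot P)).range = (u : Cardinal)

/-- The number of the points over the finite field `F` of the surface with the equation `P(t, x, y) = 0`: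
the points with `t ≠ ∞` of the affine fibres, the points at infinity of these fibres, and the same for the
fibre at `t = ∞`. -/
noncomputable def points (g h α β : ℕ) (F : Type) [Field F] (P : F[X][X][X]) : ℕ :=
  Nat.card {Q : F × F × F // evalEval Q.2.1 Q.2.2 (P.map (mapRingHom (evalRingHom Q.1))) = 0} +
    Nat.card {z : F × F // evalEval z.1 z.2 (atInfinity g h P) = 0} +
    Nat.card {z : F × F // evalEval z.1 z.2 (fibreAtInfinity g h α β P) = 0} +
    Nat.card {y : F // (atInfinity g h (fibreAtInfinity g h α β P)).eval y = 0}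

/-- The trace of the Frobenius on `H²` of this surface, `#X(F) - 1 - q²`, if it is smooth and
`b_1 = b_3 = 0`. -/
noncomputable def traceTwo (g h α β : ℕ) (F : Type) [Field F] (P : F[X][X][X]) : ℝ :=
  (points g h α β F P : ℝ) - 1 - (Nat.card F : ℝ) ^ 2

/-- The average `𝔅_v = q_v^{-m} ∑ b(fibre)` of the traces on `H²` of the surfaces `G(t, x, y) = 0` over the
points of `Spec R` above `v`, rational over the residue field of `v`, at which `N` does not vanish. -/
noncomputable def average {k R : Type} [Field k] [NumberField k] [CommRing R] [Algebra (𝓞 k) R]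
    (g h α β : ℕ) (G : R[X][X][X]) (N : R) (m : ℕ) (v : HeightOneSpectrum (𝓞 k)) : ℝ :=
  ((Nat.card (𝓞 k ⧸ v.asIdeal) : ℝ) ^ m)⁻¹ *
    ∑ᶠ φ : {φ : R →+* 𝓞 k ⧸ v.asIdeal //
      φ.comp (algebraMap (𝓞 k) R) = Ideal.Quotient.mk v.asIdeal ∧ φ N ≠ 0},
        traceTwo g h α β (𝓞 k ⧸ v.asIdeal) (G.map (mapRingHom (mapRingHom φ.1)))

/-- **The residue formula for the covers of degree `g` of the rational ruled surfaces over
`M(w_0, ..., w_l)`, fibred over the `t`-line in curves of degree `g h` in `ℙ(1, 1, h)`, with a rational total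
space, for an arbitrary finitely generated field `M` of characteristic zero and for every model.** -/
theorem result {k : Type} [Field k] [NumberField k] {M : Type} [Field M] [CharZero M] [Algebra k M]
    (hM : ∃ S : Finset M, Subfield.closure (S : Set M) = ⊤) {d : ℕ} (hd : Algebra.trdeg ℚ M = d)
    {K : Type} [Field K] [CharZero K] [Algebra M K] {l : ℕ} {w : Fin (l + 1) → K}
    (hw : AlgebraicIndependent M w) (hK : IntermediateField.adjoin M (Set.range w) = ⊤)
    {g h α β : ℕ} (hg : 0 < g) (hh : 0 < h) (_hαβ : h * α ≤ β) {H : K[X][X][X]} (hH : IsPlane g h H)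
    (_hdeg : ∀ i j, i + h * j ≤ g * h → ((H.coeff j).coeff i).natDegree ≤ β * (g - j) - α * i)
    -- the generic fibre over the `t`-line is smooth and transversal to infinity
    (hs : IsGood g h (generic H))
    -- the fibres over the `t`-line are geometrically irreducible
    (hirr : IrreducibleFibres g h α β H 1)
    -- the function field of the surface is purely transcendental over `M`
    (hE : RationalOver M (generic H) (l + 3)) :
    Algebra.trdeg ℚ K = (d + l + 1 : ℕ) ∧
    ∃ ρ u : ℕ,
      -- the algebraic side: the ranks of the class group and of the units are finite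
      HasRanks (generic H) ρ u ∧
      -- for every model
      ∀ (R : Type) [CommRing R] [IsDomain R] [Algebra.FiniteType ℤ R] [Algebra R K]
        [IsFractionRing R K] [Algebra (𝓞 k) R],
        (∀ x : 𝓞 k, algebraMap R K (algebraMap (𝓞 k) R x) = algebraMap M K (algebraMap k M x)) →
        ∀ G : R[X][X][X], G.map (mapRingHom (mapRingHom (algebraMap R K))) = H →
          -- the fibres are irreducible outside a proper closed subset
          (∃ N : R, N ≠ 0 ∧ IrreducibleFibres g h α β G N) ∧
          -- the analytic side: the residue at `s = 2` of the series of the `𝔅_v`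
          ∀ N : R, N ≠ 0 → IrreducibleFibres g h α β G N → ∀ S : Finset (HeightOneSpectrum (𝓞 k)),
            HasResidue S (fun v => average g h α β G N (d + l + 1) v) 2
              ((1 + (ρ : ℤ) + (Nat.card {q : (RatFunc K)[X] // q.Monic ∧ Irreducible q ∧
                q ∣ atInfinity g h (generic H)} : ℤ) - (u : ℤ) : ℤ) : ℝ) := by
  classical
  have hcK : CharZero (RatFunc K) := charZero_of_injective_algebraMap
    (algebraMap K (RatFunc K)).injective
  have hH1 : Pool.Agent.Run7.h642.PL.IsPl g h H := hH
  have hH' : Pool.Agent.Run7.h642.PL.IsPl g h (generic H) := hH1.map (algebraMap K[X] (RatFunc K))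
  have hs' : Pool.Agent.Run7.h954.CP.IsSmooth (generic H) := hs.1
  have hψ : (Pool.Agent.Run7.h642.PL.psi g h (generic H)).Separable := hs.2
  have hpr : Prime (generic H) := Pool.Agent.Run7.h642.PL.pl_prime hg hh hH' hs' hψ
  have hded : IsDedekindDomain (AdjoinRoot (generic H)) :=
    Pool.Agent.Run7.h642.PL.dedekind_smooth (hH'.monic hh).1 hpr hs'
  have htr : Algebra.trdeg ℚ K = (d + (l + 1) : ℕ) := Pool.Agent.Run7.h954.CP.trdeg_rat hw hK hd
  have hKF : Pool.Agent.R410.LW.FG K := Pool.Agent.Run7.h954.CP.fg_rat hM hK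
  have htr' : Algebra.trdeg ℚ (RatFunc K) = (d + (l + 1 + 1) : ℕ) :=
    Pool.Agent.Run7.h954.CP.trdeg_rat (Pool.Agent.Run7.h642.NG.consX_indep hw)
      (Pool.Agent.Run7.h642.NG.consX_top hK) hd
  obtain ⟨E, i1, i2, i3, i4, z, i5, i6, i7, hz, hzE⟩ := hE
  obtain ⟨ρ, u, hρ, hu, hm⟩ := Pool.Agent.Run7.h642.PL.pl_model (k₀ := k) hM hd
    (Pool.Agent.Run7.h642.NG.consX_indep hw) (Pool.Agent.Run7.h642.NG.consX_top hK) hz hzE hg hh hH' hs' hψ
  refine ⟨htr, ρ, u, ⟨hded, hρ, hu⟩, ?_⟩
  intro R _ _ _ _ _ _ hk G hG
  have hiR : Function.Injective (algebraMap R K) := IsFractionRing.injective R K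
  have hiRK : Function.Injective (mapRingHom (algebraMap R K)) := Polynomial.map_injective _ hiR
  have hGpl : Pool.Agent.Run7.h642.PL.IsPl g h G := Pool.Agent.Run7.h642.PL.IsPl.of_map
    (mapRingHom (algebraMap R K)) hiRK (by rw [hG]; exact hH1)
  have hGi : Pool.Agent.Run7.h642.PL.IsPl g h (fibreAtInfinity g h α β G) :=
    Pool.Agent.Run7.h642.SU.pfi_pl hGpl
  refine ⟨?_, ?_⟩
  · -- the irreducible fibres
    obtain ⟨N₁, hN₁, g1⟩ := Pool.Agent.Run7.h642.SU.irr_spread (K := K) hg hh hGpl (fun L _ φ t => by
      have h1 := (hirr L φ (by rw [map_one]; exact one_ne_zero)).1 t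
      rw [← hG, Polynomial.map_map, mapRingHom_comp] at h1
      have h2 : (eval₂RingHom φ t).comp (mapRingHom (algebraMap R K)) =
          eval₂RingHom (φ.comp (algebraMap R K)) t := by
        apply Polynomial.ringHom_ext
        · intro a
          rw [RingHom.comp_apply, coe_mapRingHom, map_C, coe_eval₂RingHom, eval₂_C, coe_eval₂RingHom,
            eval₂_C, RingHom.comp_apply]
        · rw [RingHom.comp_apply, coe_mapRingHom, map_X, coe_eval₂RingHom, eval₂_X, coe_eval₂RingHom,
            eval₂_X]
      rw [h2] at h1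
      exact h1)
    have hcon : ∀ (L : Type) [Field L] (φ : R →+* L) (t : L),
        Pool.Agent.Run7.h642.SU.mem ((fibreAtInfinity g h α β G).map (mapRingHom C)) φ t =
          (fibreAtInfinity g h α β G).map (mapRingHom φ) := by
      intro L _ φ t
      unfold Pool.Agent.Run7.h642.SU.mem
      rw [Polynomial.map_map, mapRingHom_comp]
      congr 2
      ext a
      rw [RingHom.comp_apply, coe_eval₂RingHom, eval₂_C]
    obtain ⟨N₂, hN₂, g2⟩ := Pool.Agent.Run7.h642.SU.irr_spread (K := K) hg hh (hGi.map (C : R →+* R[X]))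
      (fun L _ φ t => by
        have h1 := (hirr L φ (by rw [map_one]; exact one_ne_zero)).2
        rw [hcon, ← mapRingHom_comp, ← Polynomial.map_map]
        have h2 : (fibreAtInfinity g h α β G).map (mapRingHom (algebraMap R K)) =
            fibreAtInfinity g h α β H := by
          rw [← hG]
          exact Pool.Agent.Run7.h642.SU.pfi_map (algebraMap R K) g h α β G
        rw [h2]
        exact h1)
    refine ⟨N₁ * N₂, mul_ne_zero hN₁ hN₂, fun L _ φ hφ => ?_⟩
    rw [map_mul] at hφ
    refine ⟨fun t => g1 L φ (left_ne_zero_of_mul hφ) t, ?_⟩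
    have h1 := g2 L φ (right_ne_zero_of_mul hφ) 0
    rw [hcon] at h1
    exact h1
  intro N hN hgood S
  -- the model of `K(t)`
  let _ : Algebra R[X] (RatFunc K) :=
    ((algebraMap K[X] (RatFunc K)).comp (mapRingHom (algebraMap R K))).toAlgebra
  have hiRX : Function.Injective (algebraMap R[X] (RatFunc K)) :=
    (RatFunc.algebraMap_injective K).comp hiRK
  have hfr : IsFractionRing R[X] (RatFunc K) := Pool.Agent.Run7.h642.NG.frac_poly rfl
  have hft : @Algebra.FiniteType ℤ R[X] _ _ (Ring.toIntAlgebra _) := by
    have h1 : Algebra.FiniteType R R[X] := inferInstance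
    exact Pool.Agent.R410.LW.ft_int _
      (Algebra.FiniteType.trans (inferInstance : Algebra.FiniteType ℤ R) h1)
  have hG2 : G.map (mapRingHom (algebraMap R[X] (RatFunc K))) = generic H := by
    unfold generic
    rw [← hG, Polynomial.map_map, mapRingHom_comp]
    rfl
  have hk2 : ∀ x : 𝓞 k, algebraMap R[X] (RatFunc K) (((C : R →+* R[X]).comp (algebraMap (𝓞 k) R)) x) =
      algebraMap M (RatFunc K) (algebraMap k M x) := fun x => by
    show algebraMap K[X] (RatFunc K) (mapRingHom (algebraMap R K) (C (algebraMap (𝓞 k) R x))) = _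
    rw [coe_mapRingHom, map_C, hk, IsScalarTower.algebraMap_apply M K (RatFunc K)]
    rfl
  -- the bounds
  obtain ⟨c, hc0, hc⟩ := Pool.Agent.Run7.h642.SU.weil_tp hg hh
  have hb1 : ∀ (F : Type) [Field F] [Finite F] (φ : R →+* F), ((g : ℕ) : F) ≠ 0 → φ N ≠ 0 →
      |Pool.Agent.Run7.h642.PL.tp g h (fibreAtInfinity g h α β G) F φ| ≤ c * √(Nat.card F : ℝ) := by
    intro F _ _ φ hF hφ
    refine hc R _ hGi F φ hF ?_
    unfold Pool.Agent.Run7.h642.SU.AIrr
    rw [Polynomial.map_map, mapRingHom_comp]
    refine (hgood (AlgebraicClosure F) ((algebraMap F (AlgebraicClosure F)).comp φ) ?_).2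
    rw [RingHom.comp_apply]
    exact (map_ne_zero_iff _ (algebraMap F (AlgebraicClosure F)).injective).2 hφ
  have hb2 : ∀ (F : Type) [Field F] [Finite F] (φ : R[X] →+* F), ((g : ℕ) : F) ≠ 0 → φ (C N) ≠ 0 →
      |Pool.Agent.Run7.h642.PL.tp g h G F φ| ≤ c * √(Nat.card F : ℝ) := by
    intro F _ _ φ hF hφ
    refine hc R[X] G hGpl F φ hF ?_
    obtain ⟨φ₀, t, rfl⟩ : ∃ (φ₀ : R →+* F) (t : F), φ = eval₂RingHom φ₀ t :=
      ⟨φ.comp C, φ X, ((Pool.Agent.Run7.h642.NG.lineEq F).left_inv φ).symm⟩
    rw [coe_eval₂RingHom, eval₂_C] at hφ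
    unfold Pool.Agent.Run7.h642.SU.AIrr
    have h1 := Pool.Agent.Run7.h642.SU.mem_comp G φ₀ t (algebraMap F (AlgebraicClosure F))
    unfold Pool.Agent.Run7.h642.SU.mem at h1
    rw [h1]
    refine (hgood (AlgebraicClosure F) ((algebraMap F (AlgebraicClosure F)).comp φ₀) ?_).1 _
    rw [RingHom.comp_apply]
    exact (map_ne_zero_iff _ (algebraMap F (AlgebraicClosure F)).injective).2 hφ
  -- the smooth fibres
  obtain ⟨N₃, hN₃, g3⟩ := Pool.Agent.Run7.h642.PL.exists_good' (G := G) (K := RatFunc K)
    (by rw [hG2]; exact hs') (by rw [hG2]; exact hψ)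
  have hCN : (C N : R[X]) ≠ 0 := by rwa [Ne, C_eq_zero]
  have hr : C N * N₃ ≠ 0 := mul_ne_zero hCN hN₃
  obtain ⟨a1, -⟩ := hm R[X] hk2 G hG2 (C N * N₃) hr (fun F _ φ hφ => g3 F φ (by
    rw [map_mul] at hφ
    exact right_ne_zero_of_mul hφ))
  have a2 := Pool.Agent.Run7.h642.SU.asy_less (K := RatFunc K) (N := C N) htr'.le (Dvd.intro _ rfl) hr hc0
    hg.ne' hb2 a1
  have a3 := Pool.Agent.Run7.h642.SU.pl_over (k₀ := k) hM hd
    (Pool.Agent.Run7.h642.NG.consX_indep hw) (Pool.Agent.Run7.h642.NG.consX_top hK) hz hzE hg hh hH'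
    ((C : R →+* R[X]).comp (algebraMap (𝓞 k) R)) hk2 hG2 hCN
  have h3 := Pool.Agent.Run7.h642.SU.residue_fp (k₀ := k) hKF htr
    (G' := fibreAtInfinity g h α β G) hN _ a2 hc0 hg.ne' hb1 a3 S
  have h4 : (fun v : HeightOneSpectrum (𝓞 k) => (Ideal.absNorm v.asIdeal : ℝ) *
      Pool.Agent.Run7.h642.NG.avO (Pool.Agent.Run7.h642.SU.fp g h G
        (fibreAtInfinity g h α β G)) N (d + (l + 1)) v) =
      fun v => average g h α β G N (d + l + 1) v := by
    funext v
    unfold Pool.Agent.Run7.h642.NG.avO Pool.Agent.Run7.h642.NG.sO average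
    have hq0 : (Nat.card (𝓞 k ⧸ v.asIdeal) : ℝ) ≠ 0 := by
      have := Pool.Agent.H341R2.finite_v v
      exact_mod_cast (Nat.card_pos (α := 𝓞 k ⧸ v.asIdeal)).ne'
    have hqn : (Ideal.absNorm v.asIdeal : ℝ) = (Nat.card (𝓞 k ⧸ v.asIdeal) : ℝ) := rfl
    have hfv := Pool.Agent.H341R2.finite_v v
    have hfin : Finite (R →+* 𝓞 k ⧸ v.asIdeal) := inferInstance
    rw [hqn, mul_left_comm, mul_finsum]
    congr 1
    refine finsum_congr fun φ => ?_
    unfold Pool.Agent.Run7.h642.SU.fp
    have h6 : (fibreAtInfinity g h α β G).map (mapRingHom φ.1) =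
        fibreAtInfinity g h α β (G.map (mapRingHom (mapRingHom φ.1))) :=
      Pool.Agent.Run7.h642.SU.pfi_map φ.1 g h α β G
    rw [← mul_assoc, mul_inv_cancel₀ hq0, one_mul, h6]
    rfl
  rw [h4] at h3
  have hnf := Pool.Agent.Run7.h642.PL.nfac_eq (Pool.Agent.Run7.h642.PL.psi_monic hH').1.ne_zero
  rw [hnf] at h3
  have h5 : ((2 + ((ρ : ℤ) + (Nat.card {q : (RatFunc K)[X] // q.Monic ∧ Irreducible q ∧
      q ∣ Pool.Agent.Run7.h642.PL.psi g h (generic H)} : ℤ) - 1 - (u : ℤ)) : ℤ) : ℝ) =
      ((1 + (ρ : ℤ) + (Nat.card {q : (RatFunc K)[X] // q.Monic ∧ Irreducible q ∧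
                q ∣ atInfinity g h (generic H)} : ℤ) - (u : ℤ) : ℤ) : ℝ) := by
    congr 1
    show _ = 1 + (ρ : ℤ) + (Nat.card {q : (RatFunc K)[X] // q.Monic ∧ Irreducible q ∧
      q ∣ Pool.Agent.Run7.h642.PL.psi g h (generic H)} : ℤ) - (u : ℤ)
    ring
  rw [h5] at h3
  exact h3

end Pool.Agent.Results.MP_6090f9_nt.CoversOfRuledSurfaces
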