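import Pool.Agent.Run7.h642.NG.Sf

/-!
# The residue formula for surfaces which are fibred over the line in curves `C_ab`

Let `M` be a finitely generated field of characteristic zero and of transcendence degree `d` over `ℚ`,
which contains the number field `k`, and let `K = M(w_0, ..., w_l)` be the field of rational functions in
`l + 1` variables over `M`: the function field of a variety `𝒴 = Z × ℙ^(l+1)` over `k` of dimension
`m = d + l + 1`, where `Z` is any variety over `k` of dimension `d`, with the function field `M`.  Let `a`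
and `b` be coprime positive integers, `n ≥ 1`, and let `S` be the surface over `K` with the equation

  `H(t, x, y) = y^a - x^b + ∑ h_ij(t) x^i y^j = 0`,  `deg h_ij ≤ n (ab - ai - bj)`,

where the sum is over `a i + b j < a b`.  It is projective: near `t = ∞` one puts `t = 1 / t'`,
`x = x' / t'^(a n)`, `y = y' / t'^(b n)`, and the fibre at `t = ∞` is `H_∞(x', y') = 0`, where the
coefficient of `x'^i y'^j` is the coefficient of `t^(n (ab - ai - bj))` in `h_ij`; on every fibre of
`S → ℙ¹` there is one more point, which is rational and smooth: the section `O`.  For instance these are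
all elliptic surfaces over `ℙ¹` with a section and with irreducible fibres (`a = 2`, `b = 3`, `χ(𝒪) = n`:
rational surfaces for `n = 1` and K3 surfaces for `n = 2`), and the surfaces fibred in hyperelliptic and
superelliptic curves `y^a = f(t, x)`.

The algebraic side.  All the fibres of `S → ℙ¹` are irreducible, and `H¹(S, 𝒪) = 0` as `n ≥ 1`.  Thus, if
`S` is smooth, then `rank NS(S/K) = 2 + rank J(K(t))` (Shioda–Tate), where `J` is the Jacobian of the generic
fibre, and `J(K(t))` is the class group of the ring `K(t)[x, y] / (H)`.  We prove that this rank is finite.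

We assume that the total space of the family is rational over `M`, that is, that the function field of `S`
is purely transcendental over `M`.  This holds for the generic member of every linear system of such
surfaces over `M`.

The analytic side: for every model of `K` and of the surface over the integers of `k`, the series of the
averages `𝔅_v` of the traces of the Frobenius on `H²` of the fibres has the residue
`2 + rank J(K(t)) = rank NS(S/K)` at `s = 2`.
-/

set_option autoImplicit false

namespace Pool.Agent.Results.MP_6090f9_nt.FibredSurfaces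

open Polynomial NumberField IsDedekindDomain
open Pool.Agent.Y707.PR (HasResidue)

/-- The polynomial is `y^a - x^b` plus monomials `x^i y^j` with `a i + b j < a b`. Here `x` is the inner
and `y` is the outer variable. -/
def IsCab {R : Type} [CommRing R] (a b : ℕ) (H : R[X][X]) : Prop :=
  ∀ i j : ℕ, ((H - (X ^ a - C (X ^ b))).coeff j).coeff i ≠ 0 → a * i + b * j < a * b

/-- The derivative with respect to the inner variable. -/
noncomputable def derivX {R : Type} [CommRing R] (H : R[X][X]) : R[X][X] :=
  Bivariate.swap (derivative (Bivariate.swap H))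

/-- The affine curve `H = 0` is smooth: `H` and its two partial derivatives generate the unit ideal. -/
def IsSmooth {R : Type} [CommRing R] (H : R[X][X]) : Prop :=
  Ideal.span {H, derivative H, derivX H} = ⊤

/-- The function field of the curve `P = 0` over the field `L` is purely transcendental over the subfield
`M` of `L`, of transcendence degree `t`. -/
def RationalOver (M : Type) {L : Type} [Field M] [Field L] [Algebra M L] (P : L[X][X]) (t : ℕ) : Prop :=
  ∃ (E : Type) (_ : Field E) (_ : Algebra M E) (_ : Algebra L E) (_ : Algebra (AdjoinRoot P) E)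
    (z : Fin t → E), IsScalarTower M L E ∧ IsScalarTower L (AdjoinRoot P) E ∧
      IsFractionRing (AdjoinRoot P) E ∧ AlgebraicIndependent M z ∧
        IntermediateField.adjoin M (Set.range z) = ⊤

/-- The ring `L[x, y] / (P)` is a Dedekind domain, and `n` is the rank of its class group. -/
def ClassGroupHasRank {L : Type} [Field L] (P : L[X][X]) (n : ℕ) : Prop :=
  ∃ _ : IsDedekindDomain (AdjoinRoot P),
    Module.rank ℤ (Additive (ClassGroup (AdjoinRoot P))) = (n : Cardinal)

/-- The equation of the surface as the equation of a curve over the field `K(t)`: the generic fibre. -/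
noncomputable def generic {K : Type} [Field K] (H : K[X][X][X]) : (RatFunc K)[X][X] :=
  H.map (mapRingHom (algebraMap K[X] (RatFunc K)))

/-- The equation of the fibre at `t = ∞`: the coefficient of `x^i y^j` is the coefficient of
`t^(n (ab - ai - bj)) x^i y^j`. -/
noncomputable def atInfinity {R : Type} [CommRing R] (a b n : ℕ) (H : R[X][X][X]) : R[X][X] :=
  ∑ j ∈ Finset.range (a + 1), C (∑ i ∈ Finset.range (b + 1),
    C (((H.coeff j).coeff i).coeff (n * (a * b - (a * i + b * j)))) * X ^ i) * X ^ j

/-- The number of the points over the finite field `F` of the surface with the equation `P(t, x, y) = 0`: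
the points with `t ≠ ∞` outside the section, the points with `t = ∞` outside the section, and the `q + 1`
points of the section. -/
noncomputable def points (a b n : ℕ) (F : Type) [Field F] (P : F[X][X][X]) : ℕ :=
  Nat.card {Q : F × F × F // evalEval Q.2.1 Q.2.2 (P.map (mapRingHom (evalRingHom Q.1))) = 0} +
    Nat.card {z : F × F // evalEval z.1 z.2 (atInfinity a b n P) = 0} + (Nat.card F + 1)

/-- The trace of the Frobenius on `H²` of this surface, `#S(F) - 1 - q²`, if it is smooth (`H¹ = H³ = 0`). -/
noncomputable def traceTwo (a b n : ℕ) (F : Type) [Field F] (P : F[X][X][X]) : ℝ :=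
  (points a b n F P : ℝ) - 1 - (Nat.card F : ℝ) ^ 2

/-- The average `𝔅_v = q_v^{-m} ∑ b(fibre)` of the traces on `H²` of the surfaces `G(t, x, y) = 0` over the
points of `Spec R` above `v`, rational over the residue field of `v`, at which `N` does not vanish. -/
noncomputable def average {k R : Type} [Field k] [NumberField k] [CommRing R] [Algebra (𝓞 k) R]
    (a b n : ℕ) (G : R[X][X][X]) (N : R) (m : ℕ) (v : HeightOneSpectrum (𝓞 k)) : ℝ :=
  ((Nat.card (𝓞 k ⧸ v.asIdeal) : ℝ) ^ m)⁻¹ *
    ∑ᶠ φ : {φ : R →+* 𝓞 k ⧸ v.asIdeal //
      φ.comp (algebraMap (𝓞 k) R) = Ideal.Quotient.mk v.asIdeal ∧ φ N ≠ 0},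
        traceTwo a b n (𝓞 k ⧸ v.asIdeal) (G.map (mapRingHom (mapRingHom φ.1)))

/-- **The residue formula for the surfaces `y^a - x^b + ∑ h_ij(t) x^i y^j = 0` over `M(w_0, ..., w_l)`,
fibred over the `t`-line, with a rational total space, for an arbitrary finitely generated field `M` of
characteristic zero and for every model.** -/
theorem result {k : Type} [Field k] [NumberField k] {M : Type} [Field M] [CharZero M] [Algebra k M]
    (hM : ∃ S : Finset M, Subfield.closure (S : Set M) = ⊤) {d : ℕ} (hd : Algebra.trdeg ℚ M = d)
    {K : Type} [Field K] [CharZero K] [Algebra M K] {l : ℕ} {w : Fin (l + 1) → K}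
    (hw : AlgebraicIndependent M w) (hK : IntermediateField.adjoin M (Set.range w) = ⊤)
    {a b n : ℕ} (ha : 0 < a) (hb : 0 < b) (hab : a.Coprime b) (_hn : 1 ≤ n) {H : K[X][X][X]}
    (hH : IsCab a b H)
    (_hdeg : ∀ i j, a * i + b * j < a * b →
      ((H.coeff j).coeff i).natDegree ≤ n * (a * b - (a * i + b * j)))
    -- the generic fibre over the `t`-line is smooth
    (hs : IsSmooth (generic H))
    -- the function field of the surface is purely transcendental over `M`
    (hE : RationalOver M (generic H) (l + 3)) :
    Algebra.trdeg ℚ K = (d + l + 1 : ℕ) ∧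
    ∃ ρ : ℕ,
      -- the algebraic side: the rank of `J(K(t))`
      ClassGroupHasRank (generic H) ρ ∧
      -- the analytic side: the residue at `s = 2` of the series of the `𝔅_v`, for every model
      ∀ (R : Type) [CommRing R] [IsDomain R] [Algebra.FiniteType ℤ R] [Algebra R K]
        [IsFractionRing R K] [Algebra (𝓞 k) R],
        (∀ x : 𝓞 k, algebraMap R K (algebraMap (𝓞 k) R x) = algebraMap M K (algebraMap k M x)) →
        ∀ G : R[X][X][X], G.map (mapRingHom (mapRingHom (algebraMap R K))) = H →
          ∀ N : R, N ≠ 0 → ∀ S : Finset (HeightOneSpectrum (𝓞 k)),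
            HasResidue S (fun v => average a b n G N (d + l + 1) v) 2 (2 + ρ) := by
  classical
  have hcK : CharZero (RatFunc K) := charZero_of_injective_algebraMap
    (algebraMap K (RatFunc K)).injective
  have hH1 : Pool.Agent.Run7.h954.CP.IsCab a b H := hH
  have hH' : Pool.Agent.Run7.h954.CP.IsCab a b (generic H) :=
    hH1.map (algebraMap K[X] (RatFunc K))
  have hs' : Pool.Agent.Run7.h954.CP.IsSmooth (generic H) := hs
  have hded : IsDedekindDomain (AdjoinRoot (generic H)) :=
    Pool.Agent.Run7.h954.CP.dedekind_cab ha hb hab hH' hs'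
  have htr : Algebra.trdeg ℚ K = (d + (l + 1) : ℕ) := Pool.Agent.Run7.h954.CP.trdeg_rat hw hK hd
  have hKF : Pool.Agent.R410.LW.FG K := Pool.Agent.Run7.h954.CP.fg_rat hM hK
  obtain ⟨E, i1, i2, i3, i4, z, i5, i6, i7, hz, hzE⟩ := hE
  obtain ⟨ρ, hρ, hm⟩ := Pool.Agent.Run7.h642.NG.cab_model (k₀ := k) hM hd
    (Pool.Agent.Run7.h642.NG.consX_indep hw) (Pool.Agent.Run7.h642.NG.consX_top hK) hz hzE ha hb hab hH'
  refine ⟨htr, ρ, ⟨hded, hρ⟩, ?_⟩
  intro R _ _ _ _ _ _ hk G hG N hN S
  -- the model of `K(t)`
  have hiR : Function.Injective (algebraMap R K) := IsFractionRing.injective R K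
  let _ : Algebra R[X] (RatFunc K) :=
    ((algebraMap K[X] (RatFunc K)).comp (mapRingHom (algebraMap R K))).toAlgebra
  have hiRX : Function.Injective (algebraMap R[X] (RatFunc K)) :=
    (RatFunc.algebraMap_injective K).comp (Polynomial.map_injective _ hiR)
  have hfr : IsFractionRing R[X] (RatFunc K) := Pool.Agent.Run7.h642.NG.frac_poly rfl
  have hft : @Algebra.FiniteType ℤ R[X] _ _ (Ring.toIntAlgebra _) := by
    have h1 : Algebra.FiniteType R R[X] := inferInstance
    exact Pool.Agent.R410.LW.ft_int _
      (Algebra.FiniteType.trans (inferInstance : Algebra.FiniteType ℤ R) h1)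
  have hG2 : G.map (mapRingHom (algebraMap R[X] (RatFunc K))) = generic H := by
    unfold generic
    rw [← hG, Polynomial.map_map, mapRingHom_comp]
    rfl
  obtain ⟨h2, h1⟩ := hm R[X] (fun x => by
    show algebraMap K[X] (RatFunc K) (mapRingHom (algebraMap R K) (C (algebraMap (𝓞 k) R x))) = _
    rw [coe_mapRingHom, map_C, hk, IsScalarTower.algebraMap_apply M K (RatFunc K)]
    rfl) G hG2 (C N) (by rwa [Ne, C_eq_zero])
  have hGc : Pool.Agent.Run7.h954.CP.IsCab a b G := Pool.Agent.Run7.h954.CP.IsCab.of_map
    (algebraMap R[X] (RatFunc K)) hiRX (by rw [hG2]; exact hH')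
  have h3 := Pool.Agent.Run7.h642.NG.residue_fs (k₀ := k) hKF htr ha hb hab
    (Pool.Agent.Run7.h642.NG.tinf_cab n hGc) hN ρ h2 h1 S
  have h4 : (fun v : HeightOneSpectrum (𝓞 k) => (Ideal.absNorm v.asIdeal : ℝ) *
      Pool.Agent.Run7.h642.NG.avO (Pool.Agent.Run7.h642.NG.fs G
        (Pool.Agent.Run7.h642.NG.tinf a b n G)) N (d + (l + 1)) v) =
      fun v => average a b n G N (d + l + 1) v := by
    funext v
    unfold Pool.Agent.Run7.h642.NG.avO Pool.Agent.Run7.h642.NG.sO average
    have hq0 : (Nat.card (𝓞 k ⧸ v.asIdeal) : ℝ) ≠ 0 := by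
      have := Pool.Agent.H341R2.finite_v v
      exact_mod_cast (Nat.card_pos (α := 𝓞 k ⧸ v.asIdeal)).ne'
    have hqn : (Ideal.absNorm v.asIdeal : ℝ) = (Nat.card (𝓞 k ⧸ v.asIdeal) : ℝ) := rfl
    have hfv := Pool.Agent.H341R2.finite_v v
    have hfin : Finite (R →+* 𝓞 k ⧸ v.asIdeal) := inferInstance
    rw [hqn, mul_left_comm, mul_finsum]
    congr 1
    refine finsum_congr fun φ => ?_
    unfold Pool.Agent.Run7.h642.NG.fs
    rw [← mul_assoc, mul_inv_cancel₀ hq0, one_mul, Pool.Agent.Run7.h642.NG.tinf_map]
    rfl
  rw [h4] at h3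
  have h5 : ((2 + (ρ : ℤ) : ℤ) : ℝ) = 2 + (ρ : ℝ) := by
    push_cast
    rfl
  rw [h5] at h3
  exact h3

end Pool.Agent.Results.MP_6090f9_nt.FibredSurfaces
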