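import Pool.Agent.Run7.h642.NG.Rf

/-!
# The residue formula for products of curves whose total spaces are rational

Let `M` be a finitely generated field of characteristic zero and of transcendence degree `d` over `ℚ`,
which contains the number field `k`, and let `K = M(w_0, ..., w_l)` be the field of rational functions in
`l + 1` variables over `M`: the function field of a variety `𝒴 = Z × ℙ^(l+1)` over `k` of dimension
`m = d + l + 1`, where `Z` is any variety over `k` of dimension `d`, with the function field `M`.  Let `C_i`,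
for `i < r`, be smooth affine curves over `K` with the equations

  `H_i(x, y) = y^(a_i) - x^(b_i) + ∑ h_uv x^u y^v = 0`, where the sum is over `a_i u + b_i v < a_i b_i`,

with coprime positive integers `a_i` and `b_i` (for instance elliptic curves, hyperelliptic curves with a
rational Weierstrass point, superelliptic curves `y^a = f(x)`, with `f` monic of degree prime to `a`), and
let `X` be the product of their smooth projective models.  We assume that the total spaces of the families
of the curves `C_i` and of the surfaces `C_i × C_j`, `i < j`, are rational over `M`, that is, that the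
function fields `K(C_i)` and `K(C_i × C_j)` are purely transcendental over `M`.

The algebraic side.  `C_i` has one point at infinity, and it is rational.  Thus
`NS(X/K) = ℤ^r ⊕ ⨁_{i < j} Hom_K(J_i, J_j)` for the Jacobians `J_i`, and
`Hom_K(J_i, J_j) = J_j(K(C_i)) / J_j(K)`, so that `rank NS(X/K) = r + ∑_{i < j} (ρ_ij - ρ_j)` with the ranks
`ρ_j` of `J_j(K)` and `ρ_ij` of `J_j(K(C_i))`.  For every field `L ⊇ K` the group `J_j(L)` is the class
group of the ring `L[x, y] / (H_j)`.  We prove that these ranks are finite.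

The analytic side: for every model of `K` and of the curves over the integers of `k`, the series of the
averages `𝔅_v` of the traces of the Frobenius on `H²` of the fibres has the residue `rank NS(X/K)` at
`s = 2`.
-/

set_option autoImplicit false

namespace Pool.Agent.Results.MP_6090f9_nt.ProductsOfCurves

open Polynomial NumberField IsDedekindDomain
open Pool.Agent.Y707.PR (HasResidue)

/-- The polynomial is `y^a - x^b` plus monomials `x^i y^j` with `a i + b j < a b`. Here `x` is the inner
and `y` is the outer variable. -/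
def IsCab {R : Type} [CommRing R] (a b : ℕ) (H : R[X][X]) : Prop :=
  ∀ i j : ℕ, ((H - (X ^ a - C (X ^ b))).coeff j).coeff i ≠ 0 → a * i + b * j < a * b

/-- The derivative with respect to the inner variable. -/
noncomputable def derivX {R : Type} [CommRing R] (H : R[X][X]) : R[X][X] :=
  Bivariate.swap (derivative (Bivariate.swap H))

/-- The affine curve `H = 0` is smooth: `H` and its two partial derivatives generate the unit ideal. -/
def IsSmooth {R : Type} [CommRing R] (H : R[X][X]) : Prop :=
  Ideal.span {H, derivative H, derivX H} = ⊤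

/-- The function field of the curve `P = 0` over the field `L` is purely transcendental over the subfield
`M` of `L`, of transcendence degree `t`. -/
def RationalOver (M : Type) {L : Type} [Field M] [Field L] [Algebra M L] (P : L[X][X]) (t : ℕ) : Prop :=
  ∃ (E : Type) (_ : Field E) (_ : Algebra M E) (_ : Algebra L E) (_ : Algebra (AdjoinRoot P) E)
    (z : Fin t → E), IsScalarTower M L E ∧ IsScalarTower L (AdjoinRoot P) E ∧
      IsFractionRing (AdjoinRoot P) E ∧ AlgebraicIndependent M z ∧
        IntermediateField.adjoin M (Set.range z) = ⊤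

/-- The ring `L[x, y] / (P)` is a Dedekind domain, and `n` is the rank of its class group. -/
def ClassGroupHasRank {L : Type} [Field L] (P : L[X][X]) (n : ℕ) : Prop :=
  ∃ _ : IsDedekindDomain (AdjoinRoot P),
    Module.rank ℤ (Additive (ClassGroup (AdjoinRoot P))) = (n : Cardinal)

/-- The number of the elements of the finite field `F` minus the number of the points of the affine curve
`P = 0` over `F`: for a smooth fibre this is the trace of the Frobenius on `H¹` of the projective model. -/
noncomputable def traceOne (F : Type) [Field F] (P : F[X][X]) : ℝ :=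
  (Nat.card F : ℝ) - Nat.card {z : F × F // evalEval z.1 z.2 P = 0}

/-- The trace of the Frobenius on `H²` of the product of the projective models of the curves `P_i = 0`,
`i < r`: `r q + ∑_{i < j} a_i a_j`. -/
noncomputable def traceTwo {r : ℕ} (F : Type) [Field F] (P : Fin r → F[X][X]) : ℝ :=
  (r : ℝ) * Nat.card F + ∑ i, ∑ j, if i < j then traceOne F (P i) * traceOne F (P j) else 0

/-- The average `𝔅_v = q_v^{-m} ∑ b(fibre)` of the traces on `H²` of the fibres of the product of the curves
`G_i = 0` over the points of `Spec R` above `v`, rational over the residue field of `v`, at which `N` does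
not vanish. -/
noncomputable def average {k R : Type} [Field k] [NumberField k] [CommRing R] [Algebra (𝓞 k) R] {r : ℕ}
    (G : Fin r → R[X][X]) (N : R) (m : ℕ) (v : HeightOneSpectrum (𝓞 k)) : ℝ :=
  ((Nat.card (𝓞 k ⧸ v.asIdeal) : ℝ) ^ m)⁻¹ *
    ∑ᶠ φ : {φ : R →+* 𝓞 k ⧸ v.asIdeal //
      φ.comp (algebraMap (𝓞 k) R) = Ideal.Quotient.mk v.asIdeal ∧ φ N ≠ 0},
        traceTwo (𝓞 k ⧸ v.asIdeal) fun i => (G i).map (mapRingHom φ.1)

/-- The rank `r + ∑_{i < j} (ρ_ij - ρ_j)` of the Néron-Severi group of the product. -/
def rankNS {r : ℕ} (ρ : Fin r → ℕ) (ρ' : Fin r → Fin r → ℕ) : ℤ :=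
  r + ∑ i, ∑ j, if i < j then ((ρ' i j : ℤ) - ρ j) else 0

/-- **The residue formula for the products of the curves `y^a - x^b + ... = 0` over `M(w_0, ..., w_l)`
such that the total spaces of the curves and of the products of two of them are rational over `M`, for an
arbitrary finitely generated field `M` of characteristic zero and for every model.** -/
theorem result {k : Type} [Field k] [NumberField k] {M : Type} [Field M] [CharZero M] [Algebra k M]
    (hM : ∃ S : Finset M, Subfield.closure (S : Set M) = ⊤) {d : ℕ} (hd : Algebra.trdeg ℚ M = d)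
    {K : Type} [Field K] [CharZero K] [Algebra M K] {l : ℕ} {w : Fin (l + 1) → K}
    (hw : AlgebraicIndependent M w) (hK : IntermediateField.adjoin M (Set.range w) = ⊤)
    {r : ℕ} {a b : Fin r → ℕ} (ha : ∀ i, 0 < a i) (hb : ∀ i, 0 < b i) (hab : ∀ i, (a i).Coprime (b i))
    {H : Fin r → K[X][X]} (hH : ∀ i, IsCab (a i) (b i) (H i)) (hs : ∀ i, IsSmooth (H i))
    -- the function fields `E i` of the curves are purely transcendental over `M`
    {E : Fin r → Type} [∀ i, Field (E i)] [∀ i, Algebra M (E i)] [∀ i, Algebra K (E i)]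
    [∀ i, IsScalarTower M K (E i)] [∀ i, Algebra (AdjoinRoot (H i)) (E i)]
    [∀ i, IsScalarTower K (AdjoinRoot (H i)) (E i)] [∀ i, IsFractionRing (AdjoinRoot (H i)) (E i)]
    {z : ∀ i, Fin (l + 2) → E i} (hz : ∀ i, AlgebraicIndependent M (z i))
    (hE : ∀ i, IntermediateField.adjoin M (Set.range (z i)) = ⊤)
    -- the function fields of the products of two of the curves are purely transcendental over `M`
    (hEE : ∀ i j, i < j → RationalOver M ((H j).map (mapRingHom (algebraMap K (E i)))) (l + 3)) :
    Algebra.trdeg ℚ K = (d + l + 1 : ℕ) ∧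
    ∃ (ρ : Fin r → ℕ) (ρ' : Fin r → Fin r → ℕ),
      -- the algebraic side: the ranks of `J_j(K)` and of `J_j(K(C_i))`
      (∀ j, ClassGroupHasRank (H j) (ρ j)) ∧
      (∀ i j, i < j → ClassGroupHasRank ((H j).map (mapRingHom (algebraMap K (E i)))) (ρ' i j)) ∧
      -- for every model
      ∀ (R : Type) [CommRing R] [IsDomain R] [Algebra.FiniteType ℤ R] [Algebra R K]
        [IsFractionRing R K] [Algebra (𝓞 k) R],
        (∀ x : 𝓞 k, algebraMap R K (algebraMap (𝓞 k) R x) = algebraMap M K (algebraMap k M x)) →
        ∀ G : Fin r → R[X][X], (∀ i, (G i).map (mapRingHom (algebraMap R K)) = H i) →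
          -- the fibres are smooth outside a proper closed subset
          (∃ N : R, N ≠ 0 ∧ ∀ (F : Type) [Field F] (φ : R →+* F), φ N ≠ 0 →
            ∀ i, IsSmooth ((G i).map (mapRingHom φ))) ∧
          -- the analytic side: the residue at `s = 2` of the series of the `𝔅_v`
          ∀ N : R, N ≠ 0 → ∀ S : Finset (HeightOneSpectrum (𝓞 k)),
            HasResidue S (fun v => average G N (d + l + 1) v) 2 (rankNS ρ ρ') := by
  classical
  have hH' : ∀ i, Pool.Agent.Run7.h954.CP.IsCab (a i) (b i) (H i) := hH
  have hs' : ∀ i, Pool.Agent.Run7.h954.CP.IsSmooth (H i) := hs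
  have hded : ∀ i, IsDedekindDomain (AdjoinRoot (H i)) := fun i =>
    Pool.Agent.Run7.h954.CP.dedekind_cab (ha i) (hb i) (hab i) (hH' i) (hs' i)
  have htr : Algebra.trdeg ℚ K = (d + (l + 1) : ℕ) := Pool.Agent.Run7.h954.CP.trdeg_rat hw hK hd
  have hKF : Pool.Agent.R410.LW.FG K := Pool.Agent.Run7.h954.CP.fg_rat hM hK
  have hone : ∀ i, ∃ ρ : ℕ, Module.rank ℤ (Additive (ClassGroup (AdjoinRoot (H i)))) = ρ ∧
      ∀ (R : Type) [CommRing R] [IsDomain R] [Algebra R K] [IsFractionRing R K]
        [Algebra.FiniteType ℤ R] (G : R[X][X]), G.map (mapRingHom (algebraMap R K)) = H i →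
        ∀ N : R, N ≠ 0 → Pool.Agent.R410.NG.Asy
          (fun F _ _ => Pool.Agent.Run7.h954.CP.sC G N F) (d + (l + 1)) (-(ρ : ℝ)) := fun i =>
    Pool.Agent.Run7.h954.CP.rank_asy hM hd hw hK (hz i) (hE i) (ha i) (hb i) (hab i) (hH' i)
  choose ρ hρ1 hρ2 using hone
  have hmon : ∀ i, ∀ (R : Type) [CommRing R] [Algebra R K] [IsFractionRing R K] [IsDomain R]
      (G : R[X][X]), G.map (mapRingHom (algebraMap R K)) = H i → G.Monic := by
    intro i R _ _ _ _ G hG
    exact ((Pool.Agent.Run7.h954.CP.IsCab.of_map (algebraMap R K) (IsFractionRing.injective R K)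
      (by rw [hG]; exact hH' i) : Pool.Agent.Run7.h954.CP.IsCab (a i) (b i) G).monic (ha i)).1
  have hpair : ∀ i j, i < j → ∃ ρ' : ℕ,
      ClassGroupHasRank ((H j).map (mapRingHom (algebraMap K (E i)))) ρ' ∧
      ∀ (R : Type) [CommRing R] [IsDomain R] [Algebra R K] [IsFractionRing R K]
        [Algebra.FiniteType ℤ R] (G G' : R[X][X]), G.map (mapRingHom (algebraMap R K)) = H i →
        G'.map (mapRingHom (algebraMap R K)) = H j →
        ∀ N : R, N ≠ 0 → Pool.Agent.R410.NG.Asy
          (fun F _ _ => Pool.Agent.Run7.h642.NG.sA (Pool.Agent.Run7.h642.NG.pf G G') N F)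
          (d + (l + 2)) ((ρ' : ℝ) - ρ j) := by
    intro i j hij
    obtain ⟨E', i1, i2, i3, i4, z', i5, i6, i7, hz', hE'⟩ := hEE i j hij
    obtain ⟨h1, ρ', h2, h3⟩ := Pool.Agent.Run7.h642.NG.asy_pair hM hd hw hK (hz i) (hE i) hz' hE'
      (H := H i) (H' := H j) (hmon i) (ha j) (hb j) (hab j) (hH' j) (hs' j) (ρ := ρ j) (hρ2 j)
    exact ⟨ρ', ⟨h1, h2⟩, h3⟩
  choose ρ₀ hp1 hp2 using hpair
  refine ⟨htr, ρ, fun i j => if h : i < j then ρ₀ i j h else 0, fun j => ⟨hded j, hρ1 j⟩, ?_, ?_⟩
  · intro i j hij
    have h0 : (fun i j => if h : i < j then ρ₀ i j h else 0) i j = ρ₀ i j hij := dif_pos hij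
    rw [h0]
    exact hp1 i j hij
  · intro R _ _ _ _ _ _ hk G hG
    refine ⟨?_, ?_⟩
    · have h1 : ∀ i, ∃ N : R, N ≠ 0 ∧ ∀ (F : Type) [Field F] (φ : R →+* F), φ N ≠ 0 →
          Pool.Agent.Run7.h954.CP.IsSmooth ((G i).map (mapRingHom φ)) := fun i =>
        Pool.Agent.Run7.h954.CP.exists_good (G := G i) (K := K) (by rw [hG i]; exact hs' i)
      choose N hN0 hN using h1
      refine ⟨∏ i, N i, Finset.prod_ne_zero_iff.2 fun i _ => hN0 i, ?_⟩
      intro F _ φ hφ i
      rw [map_prod] at hφ
      exact hN i F φ (Finset.prod_ne_zero_iff.1 hφ i (Finset.mem_univ i))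
    · intro N hN S
      have h1 := Pool.Agent.Run7.h642.NG.residue_f2 (k₀ := k) hKF htr
        (a := a) (b := b) ha hb hab (fun i => (Pool.Agent.Run7.h954.CP.IsCab.of_map (algebraMap R K)
          (IsFractionRing.injective R K) (by rw [hG i]; exact hH' i) :
            Pool.Agent.Run7.h954.CP.IsCab (a i) (b i) (G i)))
        hN (fun i j => ((if h : i < j then ρ₀ i j h else 0 : ℕ) : ℤ) - ρ j) (by
          intro i j hij
          have h2 := hp2 i j hij R (G i) (G j) (hG i) (hG j) N hN
          rw [dif_pos hij]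
          push_cast
          exact h2) S
      have h2 : (fun v : HeightOneSpectrum (𝓞 k) => (Ideal.absNorm v.asIdeal : ℝ) *
          Pool.Agent.Run7.h642.NG.avO (Pool.Agent.Run7.h642.NG.f2 G) N (d + (l + 1)) v) =
          fun v => average G N (d + l + 1) v := by
        funext v
        unfold Pool.Agent.Run7.h642.NG.avO Pool.Agent.Run7.h642.NG.sO average
        have hq0 : (Nat.card (𝓞 k ⧸ v.asIdeal) : ℝ) ≠ 0 := by
          have := Pool.Agent.H341R2.finite_v v
          exact_mod_cast (Nat.card_pos (α := 𝓞 k ⧸ v.asIdeal)).ne'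
        have hqn : (Ideal.absNorm v.asIdeal : ℝ) = (Nat.card (𝓞 k ⧸ v.asIdeal) : ℝ) := rfl
        have hfv := Pool.Agent.H341R2.finite_v v
        have hfin : Finite (R →+* 𝓞 k ⧸ v.asIdeal) := inferInstance
        rw [hqn, mul_left_comm, mul_finsum]
        congr 1
        refine finsum_congr fun φ => ?_
        unfold Pool.Agent.Run7.h642.NG.f2 traceTwo
        rw [mul_add, ← mul_assoc (Nat.card (𝓞 k ⧸ v.asIdeal) : ℝ)
          (Nat.card (𝓞 k ⧸ v.asIdeal) : ℝ)⁻¹, mul_inv_cancel₀ hq0, one_mul, mul_comm (r : ℝ)]
        rfl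
      rw [h2] at h1
      exact h1

end Pool.Agent.Results.MP_6090f9_nt.ProductsOfCurves
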