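import Pool.Agent.Run7.h184.TC.Res
import Pool.Agent.Run7.h184.TC.Gal
import Pool.Agent.Run7.h184.TC.Univ

/-!
# The residue formula for fibre averages: the totally complex fields suffice

`f : 𝒳 → 𝒴` is a fibration over a number field `K` (for instance `K = ℚ`), with `𝒴` geometrically
connected, and `X` its generic fibre.  For a finite extension `F` of `K` the conjecture for the base
change of `f` to `F` says that

`series F s = ∑_w 𝔅_w (log Nw) Nw^{-s}`  (`Re s > 2`; `w` runs over the primes of `F` not above `R`)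

has the residue `rank NS(X/F(𝒴))` at `s = 2`.  If `w | p` has residue degree `f`, then `𝔅_w = 𝔅_{p,f}` is
the average of the traces of the `Np^f`-Frobenius on `H²` over the points of the reduction of `𝒴` at `p`
over the extension of degree `f` of the residue field; `|𝔅_{p,f}| ≤ C Np^f`.  The space
`NS(X/F(𝒴)) ⊗ ℚ` consists of the elements of `W` fixed by the absolute Galois group of `F`, where `W` is
`⊗ ℚ` of the group of the classes defined over `K̄(𝒴)`, with the action of the absolute Galois group of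
`K`.  All we use is that `W` is a finite dimensional representation and that the numbers `𝔅_{p,n}` have
this growth.

Call `F` TOTALLY COMPLEX OF CYCLIC TYPE if `F` has no real embedding and `N / F` is cyclic for a finite
Galois extension `N` of `K` which contains `F`.  Let `r_v(F)` be the number of the real embeddings of `F`
above the real place `v` of `K`.

0. (No hypothesis.)  The series converge absolutely for `Re s > 2`.  Let `F_i` be finitely many finite
   extensions of `K` and `a_i` integers with `∑_i a_i r_v(F_i) = 0` for all real places `v` of `K` (for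
   instance one totally complex `F`, or `F - r₁(F) ℚ` over `K = ℚ`).  There are `m ≥ 1`, finitely many
   totally complex fields `Y_j` of cyclic type and integers `n_j` such that, for ALL fibrations,
   `m ∑_i a_i series(F_i, s) - ∑_j n_j series(Y_j, s)` extends to an ENTIRE function, and
   `m ∑_i a_i rank(F_i) = ∑_j n_j rank(Y_j)`.

Now assume the residue formula for the fibration over the totally complex fields of cyclic type only.
Then:

1. there are functions `δ_v(s)`, one for each real place `v` of `K`, such that for EVERY finite extension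
   `F` of `K`, near `s = 2` (`Re s > 2`),
   `series(F, s) = rank(F) / (s - 2) + ∑_v r_v(F) δ_v(s) + (a function analytic at 2)`;
   in particular the residue formula holds for every totally complex `F` (solvable or not);
2. the formula holds for all `F` as soon as it holds for finitely many `F_i` whose vectors
   `(r_v(F_i))_v` span `ℚ^{v}`;
3. over `K = ℚ`: if for ONE field `F₀` with a real embedding the series has some residue `R₀` at `s = 2`,
   then for ALL number fields `F` it has the residue `rank(F) + (r₁(F) / r₁(F₀)) (R₀ - rank(F₀))`, where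
   `r₁` is the number of real embeddings.

4. Hence, over `ℚ`: the formula holds for all number fields `F` if and only if it holds for the totally
   complex fields of cyclic type and for ONE number field with a real embedding (for instance `ℚ`).

The proof.  By Artin formalism the series depends additively on the permutation character of
`Gal(N/K)` on `Gal(N/K)/Gal(N/F)`, except for the finitely many places ramified in `N`, whose terms are
entire functions; so does the dimension of the space of invariants.  Modulo the characters of `G/H`, `H`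
cyclic without complex conjugations, a multiple of a combination `f` of such characters vanishes as soon
as `f` vanishes at the complex conjugations, after adjoining to `N` square roots of suitable elements
(`TC/Rel`).
-/

set_option autoImplicit false

namespace Pool.Agent.Results.MP_6090f9_nt.TotallyComplexFieldsSuffice

open NumberField IsDedekindDomain Filter Topology
open scoped Classical

/-- `F` is totally complex, and there is a finite Galois extension `N` of `K`, containing `F`, such that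
`N / F` is cyclic. -/
def CyclicType (K F : Type) [Field K] [Field F] [Algebra K F] : Prop :=
  IsEmpty (F →+* ℝ) ∧ ∃ (N : Type) (_ : Field N) (_ : NumberField N) (_ : Algebra K N)
    (_ : Algebra F N) (_ : IsScalarTower K F N), IsGalois K N ∧ IsCyclic Gal(N/F)

/-- The number `r_v(F)` of the embeddings of `F` in `ℝ` that extend `v : K → ℝ`. -/
noncomputable def realAbove {K : Type} [Field K] (F : Type) [Field F] [Algebra K F]
    (v : K →+* ℝ) : ℕ :=
  Nat.card {ρ : F →+* ℝ // ρ.comp (algebraMap K F) = v}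

/-- The fibre averages of a fibration over `K`: `value p n` is the average `𝔅_{p,n}` of the Frobenius
traces on `H²` over the points of the reduction of the base at `p` over the extension of degree `n` of
the residue field (`0` if `p` is in `R`). -/
structure Averages (K : Type) [Field K] [NumberField K] where
  value : Ideal (𝓞 K) → ℕ → ℝ
  bound : ∃ C : ℝ, ∀ p : Ideal (𝓞 K), p.IsPrime → p ≠ ⊥ → ∀ n : ℕ, n ≠ 0 →
    |value p n| ≤ C * (Ideal.absNorm p : ℝ) ^ n

section
variable {K : Type} [Field K] [NumberField K] (X : Averages K)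

/-- The term `𝔅_w (log Nw) Nw^{-s}` at a prime `w` of `F`; here `𝔅_w = value p f`, where `p` is the prime
of `K` below `w` and `Nw = Np^f` (so `f` is the residue degree). -/
noncomputable def term (F : Type) [Field F] [NumberField F] [Algebra K F] (s : ℂ)
    (w : HeightOneSpectrum (𝓞 F)) : ℂ :=
  (X.value (w.asIdeal.comap (algebraMap (𝓞 K) (𝓞 F)))
    (Nat.log (Ideal.absNorm (w.asIdeal.comap (algebraMap (𝓞 K) (𝓞 F))))
      (Ideal.absNorm w.asIdeal)) : ℂ) *
    (Real.log (Ideal.absNorm w.asIdeal) : ℂ) * (Ideal.absNorm w.asIdeal : ℂ) ^ (-s)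

/-- The function `F(s)` of the problem, for the base change to `F`. -/
noncomputable def series (F : Type) [Field F] [NumberField F] [Algebra K F] (s : ℂ) : ℂ :=
  ∑' w : HeightOneSpectrum (𝓞 F), term X F s w

/-- The series has the residue `r` at `s = 2`: near `2` (and for `Re s > 2`, where it converges) it is
the sum of `r / (s - 2)` and a function which is analytic at `2`. -/
def HasResidue (F : Type) [Field F] [NumberField F] [Algebra K F] (r : ℂ) : Prop :=
  ∃ h : ℂ → ℂ, AnalyticAt ℂ h 2 ∧ ∀ᶠ s in 𝓝 (2 : ℂ), 2 < s.re →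
    series X F s = r / (s - 2) + h s

/-- The classes which are rational over `F`: `W` is a representation of the absolute Galois group of `K`,
and `rational ρ F` is the space of the elements of `W` fixed by all elements of the absolute Galois
group which fix the image of `F` under the (chosen) embedding of `F` over `K` in the algebraic closure. -/
def rational {W : Type} [AddCommGroup W] [Module ℚ W]
    (ρ : Representation ℚ Gal(AlgebraicClosure K/K) W)
    (F : Type) [Field F] [NumberField F] [Algebra K F] : Submodule ℚ W where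
  carrier := {x | ∀ σ : Gal(AlgebraicClosure K/K),
    (∀ a : F, σ ((IsAlgClosed.lift : F →ₐ[K] AlgebraicClosure K) a) =
      (IsAlgClosed.lift : F →ₐ[K] AlgebraicClosure K) a) → ρ σ x = x}
  add_mem' {x y} hx hy := fun σ hσ => by rw [map_add, hx σ hσ, hy σ hσ]
  zero_mem' := fun σ _ => map_zero _
  smul_mem' c x hx := fun σ hσ => by rw [map_smul, hx σ hσ]

/-- The rank of the group of the classes which are rational over `F`. -/
noncomputable def rank {W : Type} [AddCommGroup W] [Module ℚ W]
    (ρ : Representation ℚ Gal(AlgebraicClosure K/K) W)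
    (F : Type) [Field F] [NumberField F] [Algebra K F] : ℕ :=
  Module.finrank ℚ (rational ρ F)

/-- The conjecture for the base change to `F`. -/
def ResidueFormula {W : Type} [AddCommGroup W] [Module ℚ W]
    (ρ : Representation ℚ Gal(AlgebraicClosure K/K) W)
    (F : Type) [Field F] [NumberField F] [Algebra K F] : Prop :=
  HasResidue X F (rank ρ F)

end

section proof

open Pool.Agent.Run7.h184.TC hiding term rational
open Pool.Agent.R433.MD Pool.Agent.R333.BR
open Pool.Agent.H921R2.TatePole (nm two_le_nm nm_summable)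

section
variable {K : Type} [Field K] [NumberField K] (X : Averages K)

/-- the local data -/
noncomputable def dat (v : HeightOneSpectrum (𝓞 K)) (n : ℕ) : ℂ := (X.value v.asIdeal n : ℂ)

theorem grow : ∃ C : ℝ, Grow 1 C (dat X) := by
  obtain ⟨C, hC⟩ := X.bound
  refine ⟨C, fun v n hn => ?_⟩
  have h1 := hC v.asIdeal v.isPrime v.ne_bot n hn
  rw [dat, Complex.norm_real, Real.norm_eq_abs, Real.rpow_one]
  refine h1.trans (le_of_eq ?_)
  push_cast
  rfl

theorem term_eq (F : Ext K) (s : ℂ) (w : HeightOneSpectrum (𝓞 F.F)) :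
    term X F.F s w = loc (Pool.Agent.Run7.h184.TC.term (dat X) s) w := by
  rw [loc_term]
  have h1 : nm w = nm (und (K := K) w) ^ fdeg (⟨w, rfl⟩ : Fib F.F (und (K := K) w)) :=
    nm_fib (K := K) ⟨w, rfl⟩
  have h2 : Nat.log (nm (und (K := K) w)) (nm w) =
      fdeg (⟨w, rfl⟩ : Fib F.F (und (K := K) w)) := by
    rw [h1]
    have := two_le_nm (und (K := K) w)
    exact Nat.log_pow (by omega) _
  change (X.value (und (K := K) w).asIdeal (Nat.log (nm (und (K := K) w)) (nm w)) : ℂ) * _ * _ = _
  rw [h2]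
  rfl

theorem series_eq (F : Ext K) (s : ℂ) : series X F.F s = ser (dat X) F s := by
  rw [series, ser]
  exact tsum_congr fun w => term_eq X F s w

theorem summable_of (F : Type) [Field F] [NumberField F] [Algebra K F] {s : ℂ} (hs : 2 < s.re) :
    Summable fun w : HeightOneSpectrum (𝓞 F) => ‖term X F s w‖ := by
  obtain ⟨C, hC⟩ := grow X
  refine (summable_term hC ⟨F⟩ (s := s) (by linarith)).congr fun w => ?_
  rw [← term_eq X ⟨F⟩ s w]

end

/-- the quotient -/
abbrev QQ (c : ℂ) : Type := (HP (1 + 1) → ℂ) ⧸ An (1 + 1) c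

section
variable {K : Type} [Field K] [NumberField K] {X : Averages K}
  {W : Type} [AddCommGroup W] [Module ℚ W] [FiniteDimensional ℚ W]
  {ρ : Representation ℚ Gal(AlgebraicClosure K/K) W}

theorem two_eq : (((1 + 1 : ℝ) : ℝ) : ℂ) = 2 := by norm_num

theorem dif_apply (F : Ext K) (s : HP (1 + 1)) : dif 1 (dat X) (ofRep ρ) F s =
    series X F.F s - (rank ρ F.F : ℂ) / (s - 2) := by
  rw [dif, two_eq, series_eq]
  rfl

/-- the principal part, as a function -/
noncomputable def pf : ℂ →ₗ[ℚ] (HP (1 + 1) → ℂ) where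
  toFun r s := r / ((s : ℂ) - 2)
  map_add' r r' := funext fun s => add_div _ _ _
  map_smul' q r := funext fun s => by
    change (q • r) / ((s : ℂ) - 2) = q • (r / ((s : ℂ) - 2))
    rw [Rat.smul_def, Rat.smul_def, mul_div_assoc]

/-- the principal part -/
noncomputable def pp : ℂ →ₗ[ℚ] QQ 2 := (An (1 + 1) 2).mkQ.comp pf

theorem pp_apply (r : ℂ) : pp r = Submodule.Quotient.mk fun s : HP (1 + 1) =>
    r / ((s : ℂ) - 2) := rfl

/-- the class of the series -/
noncomputable def sg (X : Averages K) (F : Ext K) : QQ 2 :=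
  Submodule.Quotient.mk fun s : HP (1 + 1) => series X F.F s

theorem res_iff (F : Ext K) (r : ℂ) : HasResidue X F.F r ↔ sg X F = pp r := by
  have h0 : sg X F - pp r =
      Submodule.Quotient.mk fun s : HP (1 + 1) => series X F.F s - r / ((s : ℂ) - 2) := by
    rw [pp_apply, sg, ← Submodule.Quotient.mk_sub]
    rfl
  rw [← sub_eq_zero, h0, Submodule.Quotient.mk_eq_zero]
  have h2 : ∀ s : ℂ, (1 + 1 < s.re) = (2 < s.re) := fun s => by norm_num
  constructor
  · rintro ⟨h, h1, h3⟩
    refine ⟨h, h1, h3.mono fun s hs hb => ?_⟩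
    change series X F.F s - r / (s - 2) = h s
    rw [hs (by rw [← h2]; exact hb)]
    ring
  · rintro ⟨h, h1, h3⟩
    refine ⟨h, h1, h3.mono fun s hs hb => ?_⟩
    have hb' : 1 + 1 < s.re := by rw [h2]; exact hb
    have h4 : series X F.F s - r / (s - 2) = h s := hs hb'
    rw [← h4]
    ring

theorem mk_dif (F : Ext K) : (Submodule.Quotient.mk (dif 1 (dat X) (ofRep ρ) F) : QQ 2) =
    sg X F - pp (rank ρ F.F : ℂ) := by
  have h1 : dif 1 (dat X) (ofRep ρ) F = fun s : HP (1 + 1) =>
      series X F.F s - (rank ρ F.F : ℂ) / ((s : ℂ) - 2) := funext fun s => dif_apply F s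
  rw [h1, pp_apply, sg, ← Submodule.Quotient.mk_sub]
  rfl

theorem formula_iff (F : Ext K) : ResidueFormula X ρ F.F ↔
    (Submodule.Quotient.mk (dif 1 (dat X) (ofRep ρ) F) : QQ 2) = 0 := by
  rw [mk_dif, sub_eq_zero]
  exact res_iff F _

theorem formal_An : Formal (K := K) fun F =>
    (Submodule.Quotient.mk (dif 1 (dat X) (ofRep ρ) F) : QQ 2) := by
  obtain ⟨C, hC⟩ := grow X
  exact formal_dif hC (ofRep ρ) _ fun h hh => An_of h (hh.analyticAt 2) fun s => rfl

theorem formal_Ent : Formal (K := K) fun F =>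
    (Submodule.Quotient.mk (dif 1 (dat X) (ofRep ρ) F) : (HP (1 + 1) → ℂ) ⧸ Ent (1 + 1)) := by
  obtain ⟨C, hC⟩ := grow X
  exact formal_dif hC (ofRep ρ) _ fun h hh => ⟨h, hh, fun s => rfl⟩

theorem hyp_of (h : ∀ (F : Type) [Field F] [NumberField F] [Algebra K F], CyclicType K F →
      ResidueFormula X ρ F) (Z : Ext K) (hZ : CycType K Z.F) :
    (Submodule.Quotient.mk (dif 1 (dat X) (ofRep ρ) Z) : QQ 2) = 0 :=
  (formula_iff Z).1 (h Z.F ⟨hZ.complex, hZ.cyclic⟩)

theorem defect_of (h : ∀ (F : Type) [Field F] [NumberField F] [Algebra K F], CyclicType K F →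
      ResidueFormula X ρ F) : ∃ δ : (K →+* ℝ) → ℂ → ℂ,
      ∀ (F : Type) [Field F] [NumberField F] [Algebra K F],
        ∃ h : ℂ → ℂ, AnalyticAt ℂ h 2 ∧ ∀ᶠ s in 𝓝 (2 : ℂ), 2 < s.re →
          series X F s = (rank ρ F : ℂ) / (s - 2) +
            ∑ v : K →+* ℝ, (realAbove F v : ℂ) * δ v s + h s := by
  obtain ⟨δ, hδ⟩ := abs_defect (formal_An (X := X) (ρ := ρ)) (hyp_of h)
  choose g hg using fun v => Submodule.Quotient.mk_surjective _ (δ v)
  refine ⟨fun v s => if hs : 1 + 1 < s.re then g v ⟨s, hs⟩ else 0, fun F _ _ _ => ?_⟩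
  have h1 : (Submodule.Quotient.mk (dif 1 (dat X) (ofRep ρ) (⟨F⟩ : Ext K) -
      ∑ v : K →+* ℝ, (rr F v : ℚ) • g v) : QQ 2) = 0 := by
    rw [← Submodule.mkQ_apply, map_sub, map_sum, Submodule.mkQ_apply, hδ ⟨F⟩, sub_eq_zero]
    refine Finset.sum_congr rfl fun v _ => ?_
    rw [map_smul, Submodule.mkQ_apply, hg v]
  rw [Submodule.Quotient.mk_eq_zero] at h1
  obtain ⟨h, h2, h3⟩ := h1
  refine ⟨h, h2, h3.mono fun s hs hb => ?_⟩
  have hb' : 1 + 1 < s.re := by norm_num; exact hb
  have h4 := hs hb'
  rw [Pi.sub_apply, dif_apply, Finset.sum_apply] at h4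
  have h5 : ∀ v : K →+* ℝ, (realAbove F v : ℂ) * (if hs : 1 + 1 < s.re then g v ⟨s, hs⟩ else 0) =
      ((rr F v : ℚ) • g v) ⟨s, hb'⟩ := by
    intro v
    rw [dif_pos hb', Pi.smul_apply, Rat.smul_def, Rat.cast_natCast]
    rfl
  rw [Finset.sum_congr rfl fun v _ => h5 v, ← h4]
  ring

theorem complex_of (h : ∀ (F : Type) [Field F] [NumberField F] [Algebra K F], CyclicType K F →
      ResidueFormula X ρ F) (F : Type) [Field F] [NumberField F] [Algebra K F]
    (hF : IsEmpty (F →+* ℝ)) : ResidueFormula X ρ F := by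
  obtain ⟨δ, hδ⟩ := defect_of h
  obtain ⟨g, h1, h3⟩ := hδ F
  refine ⟨g, h1, h3.mono fun s hs hb => ?_⟩
  have h2 : ∀ v : K →+* ℝ, realAbove F v = 0 := by
    intro v
    rw [realAbove, Nat.card_eq_zero]
    exact Or.inl ⟨fun x => hF.false x.1⟩
  have h3 : ∑ v : K →+* ℝ, (realAbove F v : ℂ) * δ v s = 0 :=
    Finset.sum_eq_zero fun v _ => by rw [h2 v, Nat.cast_zero, zero_mul]
  rw [hs hb, h3, add_zero]

theorem span_of (h : ∀ (F : Type) [Field F] [NumberField F] [Algebra K F], CyclicType K F →
      ResidueFormula X ρ F) (t : ℕ) (F : Fin t → Type) [∀ i, Field (F i)]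
    [∀ i, NumberField (F i)] [∀ i, Algebra K (F i)]
    (hspan : Submodule.span ℚ (Set.range fun (i : Fin t) (v : K →+* ℝ) =>
      (realAbove (F i) v : ℚ)) = ⊤) (hF : ∀ i, ResidueFormula X ρ (F i))
    (F' : Type) [Field F'] [NumberField F'] [Algebra K F'] : ResidueFormula X ρ F' :=
  (formula_iff ⟨F'⟩).2 (abs_all formal_An (hyp_of h) (fun i => (⟨F i⟩ : Ext K)) hspan
    (fun i => (formula_iff ⟨F i⟩).1 (hF i)) ⟨F'⟩)

theorem mk_sum {M : Submodule ℚ (HP (1 + 1) → ℂ)} {t : ℕ} (e : Fin t → ℤ)
    (g : Fin t → HP (1 + 1) → ℂ) :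
    ∑ i, e i • (Submodule.Quotient.mk (g i) : (HP (1 + 1) → ℂ) ⧸ M) =
      Submodule.Quotient.mk (∑ i, e i • g i) := by
  rw [← Submodule.mkQ_apply, map_sum]
  refine Finset.sum_congr rfl fun i _ => ?_
  rw [map_zsmul]
  rfl

theorem univ_of (K : Type) [Field K] [NumberField K] (t : ℕ) (F : Fin t → Type)
    [∀ i, Field (F i)] [∀ i, NumberField (F i)] [∀ i, Algebra K (F i)] (a : Fin t → ℤ)
    (h : ∀ v : K →+* ℝ, ∑ i, a i * (realAbove (F i) v : ℤ) = 0) :
    ∃ (m r : ℕ) (Y : Fin r → Type) (_ : ∀ j, Field (Y j)) (_ : ∀ j, NumberField (Y j))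
      (_ : ∀ j, Algebra K (Y j)) (n : Fin r → ℤ), m ≠ 0 ∧ (∀ j, CyclicType K (Y j)) ∧
      ∀ (X : Averages K) (W : Type) [AddCommGroup W] [Module ℚ W]
        [FiniteDimensional ℚ W] (ρ : Representation ℚ Gal(AlgebraicClosure K/K) W),
        m * ∑ i, a i * (rank ρ (F i) : ℤ) = ∑ j, n j * (rank ρ (Y j) : ℤ) ∧
        ∃ g : ℂ → ℂ, Differentiable ℂ g ∧ ∀ s : ℂ, 2 < s.re →
          m * ∑ i, a i * series X (F i) s - ∑ j, n j * series X (Y j) s = g s := by
  obtain ⟨m, r, Y, n, hm, hY, hV⟩ := abs_univ (fun i => (⟨F i⟩ : Ext K)) a h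
  refine ⟨m, r, fun j => (Y j).F, fun j => inferInstance, fun j => inferInstance,
    fun j => inferInstance, n, hm, fun j => ⟨(hY j).complex, (hY j).cyclic⟩,
    fun X W _ _ _ ρ => ?_⟩
  have h0 := hV _ _ (ofRep ρ).formal_rank
  have h0' : m * ∑ i, a i * (rank ρ (F i) : ℤ) - ∑ j, n j * (rank ρ (Y j).F : ℤ) = 0 := by
    have h5 : ((m * ∑ i, a i * (rank ρ (F i) : ℤ) - ∑ j, n j * (rank ρ (Y j).F : ℤ) : ℤ) : ℚ) =
        0 := by
      rw [← h0]
      simp only [zsmul_eq_mul]
      push_cast
      rfl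
    exact_mod_cast h5
  refine ⟨sub_eq_zero.1 h0', ?_⟩
  have h1 := hV _ _ (formal_Ent (X := X) (ρ := ρ))
  rw [mk_sum, mk_sum, ← Submodule.mkQ_apply, ← Submodule.mkQ_apply, ← map_zsmul, ← map_sub,
    Submodule.mkQ_apply, Submodule.Quotient.mk_eq_zero] at h1
  obtain ⟨g, hg, hgs⟩ := h1
  refine ⟨g, hg, fun s hs => ?_⟩
  have hs' : 1 + 1 < s.re := by norm_num; exact hs
  have h2 := hgs ⟨s, hs'⟩
  have h4 : (m * ∑ i, a i * (rank ρ (F i) : ℂ) - ∑ j, n j * (rank ρ (Y j).F : ℂ) : ℂ) = 0 := by
    exact_mod_cast congrArg (Int.cast : ℤ → ℂ) h0'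
  rw [← h2]
  simp only [Pi.sub_apply, Finset.sum_apply, zsmul_eq_mul, Int.cast_natCast, Pi.mul_apply,
    Pi.intCast_apply, Pi.natCast_apply, dif_apply, mul_sub, Finset.sum_sub_distrib]
  have h6 : (m * ∑ i, a i * ((rank ρ (F i) : ℂ) / (s - 2)) -
      ∑ j, n j * ((rank ρ (Y j).F : ℂ) / (s - 2)) : ℂ) = 0 := by
    simp only [mul_div_assoc', ← Finset.sum_div]
    rw [← sub_div, h4, zero_div]
  linear_combination h6

end

section rat
variable {X : Averages ℚ} {W : Type} [AddCommGroup W] [Module ℚ W]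
  [FiniteDimensional ℚ W] {ρ : Representation ℚ Gal(AlgebraicClosure ℚ/ℚ) W}

theorem realAbove_rat (F : Type) [Field F] [NumberField F] (v : ℚ →+* ℝ) :
    realAbove F v = Nat.card (F →+* ℝ) := by
  unfold realAbove
  exact Nat.card_congr (Equiv.subtypeUnivEquiv fun ρ => Subsingleton.elim _ _)

theorem residue_of (h : ∀ (F : Type) [Field F] [NumberField F], CyclicType ℚ F →
      ResidueFormula X ρ F) (F₀ : Type) [Field F₀] [NumberField F₀] (h0 : Nonempty (F₀ →+* ℝ))
    (R₀ : ℂ) (hR : HasResidue X F₀ R₀) (F : Type) [Field F] [NumberField F] :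
    HasResidue X F (rank ρ F + (Nat.card (F →+* ℝ) : ℂ) / (Nat.card (F₀ →+* ℝ) : ℂ) *
      (R₀ - rank ρ F₀)) := by
  have h' : ∀ (F : Type) [Field F] [NumberField F] [Algebra ℚ F], CyclicType ℚ F →
      ResidueFormula X ρ F := fun F _ _ inst hF => by
    have h1 : inst = DivisionRing.toRatAlgebra := Subsingleton.elim _ _
    subst h1
    exact h F hF
  have h1 := uniq_defect (formal_An (X := X) (ρ := ρ)) (hyp_of h') (Rat.castHom ℝ)
    (fun v => Subsingleton.elim _ _) ⟨F⟩ ⟨F₀⟩
  rw [mk_dif, mk_dif, (res_iff ⟨F₀⟩ R₀).1 hR] at h1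
  have h2 : ∀ G : Ext ℚ, rr G.F (Rat.castHom ℝ) = Nat.card (G.F →+* ℝ) := by
    intro G
    change Nat.card {ρ : G.F →+* ℝ // ρ.comp (algebraMap ℚ G.F) = Rat.castHom ℝ} = _
    exact Nat.card_congr (Equiv.subtypeUnivEquiv fun ρ => Subsingleton.elim _ _)
  rw [h2, h2] at h1
  have h6 : (Nat.card (F₀ →+* ℝ) : ℚ) ≠ 0 := Nat.cast_ne_zero.2 (by
    have : Nonempty (F₀ →+* ℝ) := h0
    exact Nat.card_pos.ne')
  refine (res_iff ⟨F⟩ _).2 ?_
  rw [map_add]
  have h3 : sg X ⟨F⟩ - pp (rank ρ F : ℂ) =
      ((Nat.card (F →+* ℝ) : ℚ) / (Nat.card (F₀ →+* ℝ) : ℚ)) •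
        (pp R₀ - pp (rank ρ F₀ : ℂ)) := by
    have h4 := congrArg (fun x => (Nat.card (F₀ →+* ℝ) : ℚ)⁻¹ • x) h1
    simp only [smul_smul, inv_mul_cancel₀ h6, one_smul] at h4
    rw [h4, div_eq_inv_mul]
  rw [sub_eq_iff_eq_add'.1 h3, ← map_sub, ← map_smul, Rat.smul_def]
  congr 2
  push_cast
  rfl

theorem rat_iff : (∀ (F : Type) [Field F] [NumberField F], ResidueFormula X ρ F) ↔
    (∀ (F : Type) [Field F] [NumberField F], CyclicType ℚ F → ResidueFormula X ρ F) ∧
      ∃ (F₀ : Type) (_ : Field F₀) (_ : NumberField F₀), Nonempty (F₀ →+* ℝ) ∧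
        ResidueFormula X ρ F₀ := by
  constructor
  · intro h
    exact ⟨fun F _ _ _ => h F, ℚ, inferInstance, inferInstance, ⟨Rat.castHom ℝ⟩, h ℚ⟩
  · rintro ⟨h, F₀, _, _, hne, h0⟩ F _ _
    have h1 := residue_of h F₀ hne (rank ρ F₀) h0 F
    rw [sub_self, mul_zero, add_zero] at h1
    exact h1

end rat

end proof

/-- **Main theorem.** -/
theorem result :
    -- 0. absolute convergence, and the universal relations (no hypothesis)
    (∀ (K : Type) [Field K] [NumberField K] (X : Averages K) (F : Type) [Field F] [NumberField F]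
      [Algebra K F] (s : ℂ), 2 < s.re →
        Summable fun w : HeightOneSpectrum (𝓞 F) => ‖term X F s w‖) ∧
    (∀ (K : Type) [Field K] [NumberField K] (t : ℕ) (F : Fin t → Type)
      [∀ i, Field (F i)] [∀ i, NumberField (F i)] [∀ i, Algebra K (F i)] (a : Fin t → ℤ),
      (∀ v : K →+* ℝ, ∑ i, a i * (realAbove (F i) v : ℤ) = 0) →
      ∃ (m r : ℕ) (Y : Fin r → Type) (_ : ∀ j, Field (Y j)) (_ : ∀ j, NumberField (Y j))
        (_ : ∀ j, Algebra K (Y j)) (n : Fin r → ℤ), m ≠ 0 ∧ (∀ j, CyclicType K (Y j)) ∧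
        ∀ (X : Averages K) (W : Type) [AddCommGroup W] [Module ℚ W]
          [FiniteDimensional ℚ W] (ρ : Representation ℚ Gal(AlgebraicClosure K/K) W),
          m * ∑ i, a i * (rank ρ (F i) : ℤ) = ∑ j, n j * (rank ρ (Y j) : ℤ) ∧
          ∃ g : ℂ → ℂ, Differentiable ℂ g ∧ ∀ s : ℂ, 2 < s.re →
            m * ∑ i, a i * series X (F i) s - ∑ j, n j * series X (Y j) s = g s) ∧
    -- over any number field `K`, if the formula holds for totally complex fields of cyclic type:
    (∀ (K : Type) [Field K] [NumberField K] (X : Averages K)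
      (W : Type) [AddCommGroup W] [Module ℚ W] [FiniteDimensional ℚ W]
      (ρ : Representation ℚ Gal(AlgebraicClosure K/K) W),
      (∀ (F : Type) [Field F] [NumberField F] [Algebra K F], CyclicType K F →
        ResidueFormula X ρ F) →
      -- 1. the defects of the real places; all totally complex fields
      (∃ δ : (K →+* ℝ) → ℂ → ℂ, ∀ (F : Type) [Field F] [NumberField F] [Algebra K F],
        ∃ h : ℂ → ℂ, AnalyticAt ℂ h 2 ∧ ∀ᶠ s in 𝓝 (2 : ℂ), 2 < s.re →
          series X F s = (rank ρ F : ℂ) / (s - 2) +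
            ∑ v : K →+* ℝ, (realAbove F v : ℂ) * δ v s + h s) ∧
      (∀ (F : Type) [Field F] [NumberField F] [Algebra K F], IsEmpty (F →+* ℝ) →
        ResidueFormula X ρ F) ∧
      -- 2. finitely many fields suffice for the rest
      (∀ (t : ℕ) (F : Fin t → Type) [∀ i, Field (F i)] [∀ i, NumberField (F i)]
          [∀ i, Algebra K (F i)],
        Submodule.span ℚ (Set.range fun (i : Fin t) (v : K →+* ℝ) =>
          (realAbove (F i) v : ℚ)) = ⊤ →
        (∀ i, ResidueFormula X ρ (F i)) →
        ∀ (F' : Type) [Field F'] [NumberField F'] [Algebra K F'], ResidueFormula X ρ F')) ∧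
    -- over `ℚ`
    (∀ (X : Averages ℚ) (W : Type) [AddCommGroup W] [Module ℚ W]
      [FiniteDimensional ℚ W] (ρ : Representation ℚ Gal(AlgebraicClosure ℚ/ℚ) W),
      -- 3. the residue for one real field determines all residues
      ((∀ (F : Type) [Field F] [NumberField F], CyclicType ℚ F → ResidueFormula X ρ F) →
        ∀ (F₀ : Type) [Field F₀] [NumberField F₀], Nonempty (F₀ →+* ℝ) →
          ∀ R₀ : ℂ, HasResidue X F₀ R₀ → ∀ (F : Type) [Field F] [NumberField F],
            HasResidue X F (rank ρ F + (Nat.card (F →+* ℝ) : ℂ) / (Nat.card (F₀ →+* ℝ) : ℂ) *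
              (R₀ - rank ρ F₀))) ∧
      -- 4. all number fields, the totally complex ones, and one real field
      ((∀ (F : Type) [Field F] [NumberField F], ResidueFormula X ρ F) ↔
        (∀ (F : Type) [Field F] [NumberField F], CyclicType ℚ F → ResidueFormula X ρ F) ∧
          ∃ (F₀ : Type) (_ : Field F₀) (_ : NumberField F₀), Nonempty (F₀ →+* ℝ) ∧
            ResidueFormula X ρ F₀)) :=
  ⟨fun _ _ _ X F _ _ _ _ hs => summable_of X F hs,
    fun K _ _ t F _ _ _ a h => univ_of K t F a h,
    fun _ _ _ _ _ _ _ _ _ h => ⟨defect_of h, fun F _ _ _ hF => complex_of h F hF,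
      fun t F _ _ _ hspan hF F' _ _ _ => span_of h t F hspan hF F'⟩,
    fun _ _ _ _ _ _ => ⟨fun h F₀ _ _ h0 R₀ hR F _ _ => residue_of h F₀ h0 R₀ hR F, rat_iff⟩⟩

end Pool.Agent.Results.MP_6090f9_nt.TotallyComplexFieldsSuffice
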